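import Pool.Agent.X172.IX.SIM

set_option autoImplicit false

/-! MP_3f621b_al, Q1: `c`-conjugacy in the symmetric inverse monoid `I(X)`, for every set `X`.
The definitions are in `Pool/Agent/X172/IX/SIM.lean`. -/

namespace Pool.Agent.Results.MP_3f621b_al.CConjugacy

open Cardinal Pool.Agent.X172.SIM

universe u

/-- The complete description of `c`-conjugacy (Q1) in `I(X)` for an arbitrary set `X`. -/
theorem result (X : Type u) (a b : X ≃. X) :
    CConj a b ↔
      (∀ k, 0 < k → cycles a k = cycles b k) ∧
      doubleRays a = doubleRays b ∧
      rightRays a + doubleRays a = rightRays b + doubleRays b ∧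
      leftRays a = leftRays b ∧
      ∀ n, 2 ≤ n → longChains a n + leftRays a = longChains b n + leftRays b := by
  rw [CConj_iff, Pool.Agent.X172.IX.c_main]
  simp only [cycles_eq, doubleRays_eq, rightRays_eq, leftRays_eq, longChains_eq]
  refine and_congr_right fun _ => and_congr_right fun _ => and_congr_right fun _ =>
    and_congr_right fun _ => ?_
  constructor
  · intro h n hn
    exact h (n - 1) (by omega)
  · intro h n hn
    have := h (n + 1) (by omega)
    rwa [Nat.add_sub_cancel] at this

end Pool.Agent.Results.MP_3f621b_al.CConjugacy
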