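import Pool.Agent.X172.IX.SIM

set_option autoImplicit false

/-! MP_3f621b_al, Q2: `p`-conjugacy in the symmetric inverse monoid `I(X)`, for every set `X`.
The definitions are in `Pool/Agent/X172/IX/SIM.lean`. -/

namespace Pool.Agent.Results.MP_3f621b_al.PConjugacy

open Cardinal Pool.Agent.X172.SIM

universe u

/-- The complete description of `p`-conjugacy (Q2) in `I(X)` for an arbitrary set `X`. -/
theorem result (X : Type u) (a b : X ≃. X) :
    PConj a b ↔
      (∀ k, 0 < k → cycles a k = cycles b k) ∧
      doubleRays a = doubleRays b ∧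
      rightRays a = rightRays b ∧
      leftRays a = leftRays b ∧
      ∀ i j, 2 ≤ i → i ≤ j →
        chains a i j ≤ chains b (i - 1) (j + 1) ∧ chains b i j ≤ chains a (i - 1) (j + 1) := by
  unfold PConj
  rw [Pool.Agent.X172.IX.p_main]
  simp only [cycles_eq, doubleRays_eq, rightRays_eq, leftRays_eq, chains_eq]
  refine and_congr_right fun _ => and_congr_right fun _ => and_congr_right fun _ =>
    and_congr_right fun _ => ?_
  constructor
  · rintro ⟨h1, h2⟩ i j hi hij
    exact ⟨h1 i j hi hij, h2 i j hi hij⟩
  · intro h
    exact ⟨fun i j hi hij => (h i j hi hij).1, fun i j hi hij => (h i j hi hij).2⟩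

end Pool.Agent.Results.MP_3f621b_al.PConjugacy
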